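import Pool.Agent.L0h94.SP.StmF
import Pool.Agent.N42.QM.Glf
import Pool.Agent.N630.PP.GP

/-!
# Project SP (helper94), part COC (helper59)

The converse of the local condition: if the class of a cocycle with values in the points of order
two is the class of a sum of points over `F`, then the cocycle is locally trivial.
-/

set_option autoImplicit false
set_option linter.all false

open Polynomial WeierstrassCurve WeierstrassCurve.Affine
open Pool.Agent.TH115.GD Pool.Agent.N874.PP Pool.Agent.N199.PP Pool.Agent.N630.PP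
open scoped Classical

namespace Pool.Agent.L0h59.SP.COC

/-- Division of a point by two. -/
theorem halve {F : Type*} [Field F] [DecidableEq F] {W : Affine F} {a b : F} (h : IsS W a b)
    {x y u v w t1 t2 t3 : F} (hP : W.Nonsingular x y) (hs : t1 + t2 + t3 = 0)
    (ha : a = t1 * t2 + t1 * t3 + t2 * t3) (hb : b = -(t1 * t2 * t3)) (h12 : t1 ≠ t2)
    (h13 : t1 ≠ t3) (h23 : t2 ≠ t3) (hu : u ^ 2 = x - t1) (hv : v ^ 2 = x - t2)
    (hw : w ^ 2 = x - t3) (hy : u * v * w = y) : ∃ P : W.Point, P + P = Point.some x y hP := by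
  have huv : u + v ≠ 0 := by
    intro h0
    have : u ^ 2 = v ^ 2 := by rw [show u = -v by linear_combination h0]; ring
    rw [hu, hv] at this
    exact h12 (by linear_combination -this)
  have huw : u + w ≠ 0 := by
    intro h0
    have : u ^ 2 = w ^ 2 := by rw [show u = -w by linear_combination h0]; ring
    rw [hu, hw] at this
    exact h13 (by linear_combination -this)
  have hvw : v + w ≠ 0 := by
    intro h0
    have : v ^ 2 = w ^ 2 := by rw [show v = -w by linear_combination h0]; ring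
    rw [hv, hw] at this
    exact h23 (by linear_combination -this)
  obtain ⟨X, hX⟩ : ∃ X, X = x + u * v + u * w + v * w := ⟨_, rfl⟩
  obtain ⟨Y, hY⟩ : ∃ Y, Y = (u + v) * (u + w) * (v + w) := ⟨_, rfl⟩
  have hY0 : Y ≠ 0 := by rw [hY]; exact mul_ne_zero (mul_ne_zero huv huw) hvw
  have e1 : X - t1 = (u + v) * (u + w) := by rw [hX]; linear_combination -hu
  have e2 : X - t2 = (u + v) * (v + w) := by rw [hX]; linear_combination -hv
  have e3 : X - t3 = (u + w) * (v + w) := by rw [hX]; linear_combination -hw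
  have hcub : X ^ 3 + a * X + b = (X - t1) * (X - t2) * (X - t3) := by
    rw [ha, hb]
    linear_combination X ^ 2 * hs
  have hder : 3 * X ^ 2 + a = (X - t1) * (X - t2) + (X - t1) * (X - t3) + (X - t2) * (X - t3) := by
    rw [ha]
    linear_combination 2 * X * hs
  have hN : W.Nonsingular X Y := by
    rw [h.nonsingular, hcub, e1, e2, e3, hY]
    ring
  have h2Y : (2 : F) * Y ≠ 0 := mul_ne_zero h.two hY0
  have hne : Y ≠ W.negY X Y := by
    rw [h.negY]
    intro h1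
    apply h2Y
    linear_combination h1
  have hsl : W.slope X X Y Y = u + v + w := by
    have h3 : W.slope X X Y Y = (3 * X ^ 2 + a) / (2 * Y) := by
      rw [slope_of_Y_ne rfl hne, h.negY, h.a1, h.a2, h.a4]
      congr 1 <;> ring
    rw [h3, div_eq_iff h2Y, hder, e1, e2, e3, hY]
    ring
  have f1 : W.addX X X (W.slope X X Y Y) = x := by
    rw [hsl, addX, h.a1, h.a2, hX]
    linear_combination hu + hv + hw - hs
  have f2 : W.addY X X Y (W.slope X X Y Y) = y := by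
    rw [addY, negAddY, f1, hsl, h.negY, hX, hY, ← hy]
    ring
  refine ⟨Point.some X Y hN, ?_⟩
  rw [Point.add_self_of_Y_ne hne]
  simp only [f1, f2]

section sep

variable {K Ω : Type} [Field K] [Field Ω] [Algebra K Ω] {A B : K}

/-- The relations between the three roots. -/
theorem roots_rel {t1 t2 t3 a b : Ω} (h1 : t1 ^ 3 + a * t1 + b = 0) (h2 : t2 ^ 3 + a * t2 + b = 0)
    (h3 : t3 ^ 3 + a * t3 + b = 0) (h12 : t1 ≠ t2) (h13 : t1 ≠ t3) (h23 : t2 ≠ t3) :
    t1 + t2 + t3 = 0 ∧ a = t1 * t2 + t1 * t3 + t2 * t3 ∧ b = -(t1 * t2 * t3) := by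
  have e3 := rel3 h1 h2 h3 h12 h13 h23
  obtain ⟨ha, hb⟩ := rel2 h1 h2 h12
  refine ⟨by rw [e3]; ring, ?_, ?_⟩
  · rw [ha, e3]; ring
  · rw [hb, e3]; ring

/-- Divisibility by two over a separably closed field. -/
theorem halve_sep [IsSepClosed Ω] (h6 : (6 : K) ≠ 0) (hd : 4 * A ^ 3 + 27 * B ^ 2 ≠ 0)
    {t1 t2 t3 : Ω} (h1 : Rt A B t1) (h2 : Rt A B t2) (h3 : Rt A B t3) (h12 : t1 ≠ t2)
    (h13 : t1 ≠ t3) (h23 : t2 ≠ t3) (Q : Pt (sW A B) Ω) : ∃ P : Pt (sW A B) Ω, (2 : ℕ) • P = Q := by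
  have hS := isS (Ω := Ω) h6 hd
  rcases Q with _ | ⟨x, y, hxy⟩
  · exact ⟨0, nsmul_zero 2⟩
  obtain ⟨hs, ha, hb⟩ := roots_rel h1 h2 h3 h12 h13 h23
  haveI : NeZero ((2 : ℕ) : Ω) := ⟨by exact_mod_cast hS.two⟩
  obtain ⟨u, hu⟩ := IsSepClosed.exists_pow_nat_eq (x - t1) 2
  obtain ⟨v, hv⟩ := IsSepClosed.exists_pow_nat_eq (x - t2) 2
  obtain ⟨w, hw⟩ := IsSepClosed.exists_pow_nat_eq (x - t3) 2
  have he := hS.nonsingular.1 hxy
  have hsq : (u * v * w) ^ 2 = y ^ 2 := by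
    rw [he, ha, hb, mul_pow, mul_pow, hu, hv, hw]
    linear_combination -x ^ 2 * hs
  rcases sq_eq_sq_iff_eq_or_eq_neg.1 hsq with hy | hy
  · obtain ⟨P, hP⟩ := halve hS hxy hs ha hb h12 h13 h23 hu hv hw hy
    exact ⟨P, by rw [two_nsmul]; exact hP⟩
  · obtain ⟨P, hP⟩ := halve hS hxy hs ha hb h12 h13 h23 (u := -u) (by rw [neg_sq, hu]) hv hw
      (by linear_combination -hy)
    exact ⟨P, by rw [two_nsmul]; exact hP⟩

end sep

section main

variable {M F : Type} [Field M] [Field F] [Algebra M F] {A B : M}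

theorem aeval_cub {Ω : Type} [Field Ω] [Algebra M Ω] [Algebra F Ω] [IsScalarTower M F Ω] {t : Ω}
    (ht : Rt A B t) : aeval t ((X ^ 3 + C A * X + C B : M[X]).map (algebraMap M F)) = 0 := by
  rw [aeval_map_algebraMap]
  have e : t ^ 3 + algebraMap M Ω A * t + algebraMap M Ω B = 0 := ht
  rw [← e]
  simp

/-- The sum of the halves of a list of points. -/
theorem list_pts (h6 : (6 : M) ≠ 0) (hD : 4 * A ^ 3 + 27 * B ^ 2 ≠ 0) {t1 t2 t3 : Sep F}
    (h1 : Rt A B t1) (h2 : Rt A B t2) (h3 : Rt A B t3) (h12 : t1 ≠ t2)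
    (h13 : t1 ≠ t3) (h23 : t2 ≠ t3) (l : List (F × F))
    (hl : ∀ p ∈ l, p.2 ≠ 0 ∧
      p.2 ^ 2 = ((X ^ 3 + C A * X + C B : M[X]).map (algebraMap M F)).eval p.1) :
    ∃ (R : Pt (sW A B) (Sep F)) (ρ : Sep F → Sep F),
      (∀ t : Sep F, Rt A B t →
        ρ t ≠ 0 ∧ ρ t ^ 2 = aeval t (l.map fun p => (C p.1 - X : F[X])).prod) ∧
      ∀ τ : Sep F ≃ₐ[F] Sep F, (2 : ℕ) • (act (sW A B) (rs M τ) R - R) = 0 ∧
        ∀ t : Sep F, Rt A B t →
          τ (ρ t) = sg (act (sW A B) (rs M τ) R - R) (τ t) * ρ (τ t) := by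
  induction l with
  | nil =>
    refine ⟨0, fun _ => 1, fun t _ => ⟨one_ne_zero, by simp⟩, fun τ => ?_⟩
    rw [map_zero, sub_zero]
    refine ⟨nsmul_zero 2, fun t _ => ?_⟩
    rw [sg_zero, map_one, one_mul]
  | cons p l ih =>
    obtain ⟨R, ρ, hρ, hR⟩ := ih fun q hq => hl q (List.mem_cons_of_mem _ hq)
    obtain ⟨hp0, hp⟩ := hl p List.mem_cons_self
    have hpe : p.2 ^ 2 = p.1 ^ 3 + algebraMap M F A * p.1 + algebraMap M F B := by
      rw [hp]
      simp
    have hN : ((sW A B).baseChange F).toAffine.Nonsingular p.1 p.2 :=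
      (isS (Ω := F) h6 hD).nonsingular.2 hpe
    obtain ⟨P, hP⟩ : ∃ P : Pt (sW A B) F, P = Point.some p.1 p.2 hN := ⟨_, rfl⟩
    obtain ⟨Q, hQ⟩ := halve_sep (Ω := Sep F) h6 hD h1 h2 h3 h12 h13 h23
      (act (sW A B) (incl M F (Sep F)) P)
    have hQ0 : (2 : ℕ) • Q ≠ 0 := by
      rw [hQ]
      intro h0
      have h4 : P = 0 := act_inj (sW A B) (incl M F (Sep F)) (by rw [h0, map_zero])
      rw [hP] at h4
      exact Point.some_ne_zero _ h4
    obtain ⟨x, y, hxy, h2Q, hrr⟩ := gp1 M (Sep F) A B h6 hD Q hQ0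
    have hx : x = algebraMap F (Sep F) p.1 := by
      rw [h2Q, hP] at hQ
      obtain ⟨hh, he⟩ := act_some (sW A B) (incl M F (Sep F)) hN
      rw [he] at hQ
      exact (Point.some.inj hQ).1
    have hTQ : ∀ τ : Sep F ≃ₐ[F] Sep F, (2 : ℕ) • (act (sW A B) (rs M τ) Q - Q) = 0 := by
      intro τ
      rw [smul_sub, ← map_nsmul, hQ, rs_act_incl, sub_self]
    have hrt : ∀ (τ : Sep F ≃ₐ[F] Sep F) (t : Sep F), Rt A B t → Rt A B (τ t) := by
      intro τ t ht
      exact Rt_map (rs M τ) ht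
    have hrr0 : ∀ t : Sep F, Rt A B t → rr t Q ≠ 0 := by
      intro t ht h0
      have h4 := hrr t ht
      rw [h0, zero_pow two_ne_zero] at h4
      have h5 : t = algebraMap F (Sep F) p.1 := by
        rw [← hx]
        linear_combination h4
      have h6 : t ^ 3 + algebraMap M (Sep F) A * t + algebraMap M (Sep F) B = 0 := ht
      rw [h5, IsScalarTower.algebraMap_apply M F (Sep F) A,
        IsScalarTower.algebraMap_apply M F (Sep F) B, ← map_pow, ← map_mul, ← map_add,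
        ← map_add, ← hpe, map_eq_zero] at h6
      exact hp0 (pow_eq_zero_iff two_ne_zero |>.1 h6)
    refine ⟨R + Q, fun t => rr t Q * ρ t, fun t ht => ⟨mul_ne_zero (hrr0 t ht) (hρ t ht).1, ?_⟩,
      fun τ => ?_⟩
    · rw [List.map_cons, List.prod_cons, map_mul, mul_pow, (hρ t ht).2, hrr t ht, hx]
      simp
    · have e1 : act (sW A B) (rs M τ) (R + Q) - (R + Q) =
          (act (sW A B) (rs M τ) R - R) + (act (sW A B) (rs M τ) Q - Q) := by
        rw [map_add]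
        abel
      rw [e1]
      refine ⟨by rw [smul_add, (hR τ).1, hTQ τ, add_zero], fun t ht => ?_⟩
      rw [(gp3 M (Sep F) A B h6 hD t1 t2 t3 h1 h2 h3 h12 h13 h23).2.1 _ _ (τ t) (hR τ).1 (hTQ τ)
        (hrt τ t ht)]
      have e2 : τ (rr t Q) = rr (τ t) (Q + (act (sW A B) (rs M τ) Q - Q)) := by
        have e3 : Q + (act (sW A B) (rs M τ) Q - Q) = act (sW A B) (rs M τ) Q := by abel
        rw [e3]
        exact ((gp4 M (Sep F) (Sep F) A B (rs M τ) Q t).2).symm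
      rw [map_mul, e2, gp2 M (Sep F) A B h6 hD Q _ hQ0 (hTQ τ) (τ t) (hrt τ t ht), (hR τ).2 t ht]
      ring

/-- (COC) -/
theorem t_COC : Pool.Agent.L0h94.SP.S_COC := by
  intro M F _ _ _ A B h6 hD f hf β h hβ hh hcl
  obtain ⟨hf1, hf2⟩ := hf
  obtain ⟨l, s, hl, hdvd⟩ := hcl
  obtain ⟨ι, -⟩ : ∃ ι : Sep M →ₐ[M] Sep F, True := ⟨IsSepClosed.lift, trivial⟩
  obtain ⟨Z, hZ3, hZ⟩ := exists_Z (Ω := Sep M) A B hD
  obtain ⟨a, b, c, hab, hac, hbc, hZe⟩ := Finset.card_eq_three.1 hZ3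
  have ma : Rt A B a := (mem_Z hZ a).1 (by rw [hZe]; simp)
  have mb : Rt A B b := (mem_Z hZ b).1 (by rw [hZe]; simp)
  have mc : Rt A B c := (mem_Z hZ c).1 (by rw [hZe]; simp)
  have hall : ∀ t : Sep M, Rt A B t → t = a ∨ t = b ∨ t = c := by
    intro t ht
    have := (mem_Z hZ t).2 ht
    rw [hZe] at this
    simpa using this
  have nab : ι a ≠ ι b := fun e => hab (ι.injective e)
  have nac : ι a ≠ ι c := fun e => hac (ι.injective e)
  have nbc : ι b ≠ ι c := fun e => hbc (ι.injective e)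
  have G3 := gp3 M (Sep F) A B h6 hD (ι a) (ι b) (ι c) (Rt_map ι ma) (Rt_map ι mb) (Rt_map ι mc)
    nab nac nbc
  obtain ⟨R, ρ, hρ, hR⟩ := list_pts h6 hD (Rt_map ι ma) (Rt_map ι mb) (Rt_map ι mc) nab nac nbc
    l hl
  have hval : ∀ t : Sep M, Rt A B t → (ι (β t) * ρ (ι t)) ^ 2 = (aeval (ι t) s) ^ 2 := by
    intro t ht
    have e1 : aeval (ι t) (h.map (algebraMap M F) * (l.map fun p => (C p.1 - X : F[X])).prod -
        s ^ 2) = 0 := by
      obtain ⟨q, hq⟩ := hdvd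
      rw [hq, map_mul, aeval_cub (Rt_map ι ht), zero_mul]
    rw [map_sub, map_mul, map_pow, aeval_map_algebraMap, sub_eq_zero] at e1
    rw [mul_pow, (hρ _ (Rt_map ι ht)).2, ← map_pow, ← hh t ht, ← aeval_algHom_apply, e1]
  -- the signs
  obtain ⟨s', η, hη, hη1⟩ : ∃ (s' : F[X]) (η : Sep M → Sep F), (∀ t, Rt A B t →
      (η t = 1 ∨ η t = -1) ∧ ι (β t) * ρ (ι t) = η t * aeval (ι t) s') ∧
      η a * η b * η c = 1 := by
    obtain ⟨η, hη⟩ : ∃ η : Sep M → Sep F, ∀ t, Rt A B t →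
        (η t = 1 ∨ η t = -1) ∧ ι (β t) * ρ (ι t) = η t * aeval (ι t) s := by
      have h1 : ∀ t : Sep M, ∃ e : Sep F, Rt A B t →
          (e = 1 ∨ e = -1) ∧ ι (β t) * ρ (ι t) = e * aeval (ι t) s := by
        intro t
        by_cases ht : Rt A B t
        · rcases sq_eq_sq_iff_eq_or_eq_neg.1 (hval t ht) with h1 | h1
          · exact ⟨1, fun _ => ⟨Or.inl rfl, by rw [h1, one_mul]⟩⟩
          · exact ⟨-1, fun _ => ⟨Or.inr rfl, by rw [h1]; ring⟩⟩
        · exact ⟨1, fun h2 => absurd h2 ht⟩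
      exact ⟨fun t => (h1 t).choose, fun t ht => (h1 t).choose_spec ht⟩
    have h1 : η a * η b * η c = 1 ∨ η a * η b * η c = -1 := by
      rcases (hη a ma).1 with e1 | e1 <;> rcases (hη b mb).1 with e2 | e2 <;>
        rcases (hη c mc).1 with e3 | e3 <;> rw [e1, e2, e3] <;> simp
    rcases h1 with h1 | h1
    · exact ⟨s, η, hη, h1⟩
    · refine ⟨-s, fun t => -η t, fun t ht => ⟨?_, ?_⟩, by linear_combination -h1⟩
      · rcases (hη t ht).1 with e | e
        · right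
          show -η t = -1
          rw [e]
        · left
          show -η t = 1
          rw [e, neg_neg]
      · rw [(hη t ht).2, map_neg]; ring
  obtain ⟨T, hT, hTa, hTb, hTc⟩ := G3.2.2.2 (η a) (η b) (η c) (hη a ma).1 (hη b mb).1 (hη c mc).1 hη1
  have hTη : ∀ t : Sep M, Rt A B t → sg T (ι t) = η t := by
    intro t ht
    rcases hall t ht with rfl | rfl | rfl
    · exact hTa
    · exact hTb
    · exact hTc
  refine ⟨ι, T - R, fun τ σ hτσ => ?_⟩
  have hιι : (ι.restrictScalars M : Sep M →ₐ[M] Sep F) = ι := AlgHom.ext fun _ => rfl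
  rw [hιι]
  obtain ⟨U, hU⟩ : ∃ U : Pt (sW A B) (Sep F),
    U = act (sW A B) ι (f σ) + (act (sW A B) (rs M τ) R - R) := ⟨_, rfl⟩
  have hfσ : (2 : ℕ) • act (sW A B) ι (f σ) = 0 := by rw [← map_nsmul, hf2, map_zero]
  have hU2 : (2 : ℕ) • U = 0 := by rw [hU, smul_add, hfσ, (hR τ).1, add_zero]
  have hτT : (2 : ℕ) • act (sW A B) (rs M τ) T = 0 := by rw [← map_nsmul, hT, map_zero]
  have key1 : ∀ t : Sep M, Rt A B t → η t = sg U (ι (σ t)) * η (σ t) := by
    intro t ht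
    have ht' : Rt A B (σ t) := Rt_map (σ : Sep M →ₐ[M] Sep M) ht
    have e1 := congrArg τ (hη t ht).2
    have e2 : τ (η t) = η t := by
      rcases (hη t ht).1 with e | e
      · rw [e, map_one]
      · rw [e, map_neg, map_one]
    have e3 : τ (aeval (ι t) s') = aeval (ι (σ t)) s' := by
      rw [← hτσ]
      exact (aeval_algHom_apply (τ : Sep F →ₐ[F] Sep F) (ι t) s').symm
    have e4 : sg (act (sW A B) ι (f σ)) (ι (σ t)) = ι (sg (f σ) (σ t)) :=
      (gp4 M _ _ A B ι (f σ) (σ t)).1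
    have e5 : sg U (ι (σ t)) = sg (act (sW A B) ι (f σ)) (ι (σ t)) *
        sg (act (sW A B) (rs M τ) R - R) (ι (σ t)) := by
      rw [hU]
      exact G3.2.1 _ _ _ hfσ (hR τ).1 (Rt_map ι ht')
    have e6 := (hR τ).2 (ι t) (Rt_map ι ht)
    rw [hτσ] at e6
    have e7 : τ (ι (β t)) = ι (sg (f σ) (σ t)) * ι (β (σ t)) := by
      rw [hτσ, (hβ t ht).2 σ, map_mul]
    rw [map_mul, map_mul, e2, e3, e6, e7, ← e4] at e1
    have e8 := (hη (σ t) ht').2
    have hne : aeval (ι (σ t)) s' ≠ 0 := by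
      intro h0
      rw [h0, mul_zero] at e8
      rcases mul_eq_zero.1 e8 with h1 | h1
      · rw [map_eq_zero] at h1
        exact (hβ (σ t) ht').1 h1
      · exact (hρ _ (Rt_map ι ht')).1 h1
    apply mul_right_cancel₀ hne
    rw [← e1, e5]
    linear_combination (sg (act (sW A B) ι (f σ)) (ι (σ t)) *
      sg (act (sW A B) (rs M τ) R - R) (ι (σ t))) * e8
  have key2 : ∀ t : Sep M, Rt A B t → sg (act (sW A B) (rs M τ) T + U + T) (ι t) = 1 := by
    intro u hu
    obtain ⟨t, ht, rfl⟩ : ∃ t, Rt A B t ∧ u = σ t :=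
      ⟨σ.symm u, Rt_map (σ.symm : Sep M →ₐ[M] Sep M) hu, (σ.apply_symm_apply u).symm⟩
    have e1 : sg (act (sW A B) (rs M τ) T) (ι (σ t)) = η t := by
      have e2 := (gp4 M _ _ A B (rs M τ) T (ι t)).1
      rw [rs_apply, rs_apply, hτσ, hTη t ht] at e2
      rw [e2]
      rcases (hη t ht).1 with e | e
      · rw [e, map_one]
      · rw [e, map_neg, map_one]
    rw [G3.2.1 _ _ _ (by rw [smul_add, hτT, hU2, add_zero]) hT (Rt_map ι hu),
      G3.2.1 _ _ _ hτT hU2 (Rt_map ι hu), e1, key1 t ht, hTη _ hu]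
    have e3 := sg_sq U (ι (σ t))
    have e4 : η (σ t) * η (σ t) = 1 := by
      rw [← hTη _ hu]
      exact sg_sq T (ι (σ t))
    linear_combination (η (σ t) * η (σ t)) * e3 + e4
  have h0 : act (sW A B) (rs M τ) T + U + T = 0 :=
    G3.2.2.1 _ (by rw [smul_add, smul_add, hτT, hU2, hT, add_zero, add_zero]) (key2 a ma)
      (key2 b mb) (key2 c mc)
  rw [two_nsmul] at hτT
  have e : act (sW A B) ι (f σ) - (act (sW A B) (rs M τ) (T - R) - (T - R)) =
      (act (sW A B) (rs M τ) T + U + T) -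
        (act (sW A B) (rs M τ) T + act (sW A B) (rs M τ) T) := by
    rw [map_sub, hU]
    abel
  rw [← sub_eq_zero, e, h0, hτT, sub_zero]

end main

end Pool.Agent.L0h59.SP.COC
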